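import Pool.Agent.H60.FM.Family
import Pool.Agent.H60.HS.Free

/-!
# The compact definitions and those of the library
-/

set_option autoImplicit false

open CategoryTheory AlgebraicGeometry NumberField

universe u v u' v' w

namespace Pool.Agent.H60.FM

open Pool.Agent.H914 Pool.Agent.H914.VarClass Pool.Agent.H914.VarClass.Obj
  Pool.Agent.H914.WeilCohomology Pool.Agent.H281R3.HT Pool.Agent.W534 Pool.Agent.W552
  Pool.Agent.Y103.Hk Pool.Agent.Y103.Sh Pool.Agent.Y103.Sq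

section

variable {T : Theory.{u, v}}

lemma ht_iff {P : T.Pol} : T.HT P ↔ ∀ j, HS.HodgeTypeIn T.W (P : Polarized T.𝒱) j :=
  ⟨fun h j hj z hz hp h0 => h j z hj hz hp h0, fun h j z hj hz hp h0 => h j hj z hz hp h0⟩

lemma homNum_iff {P : T.Pol} :
    T.HomNum P ↔ ∀ j, HS.HomEqNumIn T.W (Polarized.X P) j :=
  ⟨fun h j hj z hz hw => h j z hj hz hw, fun h j z hj hz hw => h j hj z hz hw⟩

lemma lef_eq (P : T.Pol) (r : ℕ) (x : T.Coh P) : T.lef P r x =
    ((LinearMap.mulLeft T.W.K (T.W.cl (T.var P) (T.div P))) ^ r) x := by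
  rw [LinearMap.pow_mulLeft, LinearMap.mulLeft_apply]
  rfl

lemma hard {P : T.Pol} (h : T.Hard P) : HardLefschetz T.W (T.var P) (T.div P) := by
  intro i hi
  obtain ⟨h1, h2⟩ := h i hi
  refine ⟨fun x hx h0 => h1 x hx ((lef_eq P _ x).trans h0), fun y hy => ?_⟩
  obtain ⟨x, hx, hxy⟩ := h2 y hy
  exact ⟨x, hx, (lef_eq P _ x).symm.trans hxy⟩

lemma lefB {P : T.Pol} (h : T.LefB P) : LefschetzB T.W (T.var P) (T.div P) := by
  obtain ⟨z, hz, h⟩ := h
  refine ⟨z, hz, fun i hi x hx h0 => ?_⟩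
  obtain ⟨h1, h2⟩ := h i hi x hx ((lef_eq P _ x).trans h0)
  refine ⟨h1, fun j hj => ?_⟩
  rw [← lef_eq, ← lef_eq]
  exact h2 j hj

lemma isLefschetz {P : T.Pol} (h : T.IsLefschetz P) :
    HS.IsLefschetz T.W (P : Polarized T.𝒱) :=
  ⟨h.1, hard h.2.1, lefB h.2.2⟩

end

section

variable {T' : Theory.{u', v'}} {T : Theory.{u, v}} {σ : CoefIso T' T}

/-- The isomorphism in the sense of `LiftableCorrespondences`. -/
noncomputable def cohIso {P' : T'.Pol} {P : T.Pol} {e : RingIso T' T P' P} (h : IsSpec σ e) :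
    HS.CohIso T'.W T.W σ P' P where
  dim_eq := h.dim_eq
  iso :=
    { e := e
      smul := h.semilinear
      gr := fun i x => h.gr i x
      tr := fun x => h.tr x
      div := h.div }

lemma corrSpecialize {P' Q' : T'.Pol} {P Q : T.Pol} {e : RingIso T' T P' P}
    {f : RingIso T' T Q' Q} (he : IsSpec σ e) (hf : IsSpec σ f) (h : CyclesSpecialize e f) :
    HS.CorrSpecialize (cohIso he) (cohIso hf) := by
  intro p z' hz'
  obtain ⟨z, hz, hx⟩ := h p z' hz'
  exact ⟨z, hz, fun x => hx x⟩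

end

section

variable {T : Theory.{u, v}} {p : ℕ} [Fact p.Prime] {Φ : FrobSystem T.W p}
  {ι : AlgebraicClosure ℚ →+* PadicAlgCl p}

/-- The family in the sense of `HS.FreeFamily`. -/
def FreeFamily.toHS (F : FreeFamily T Φ ι) : HS.FreeFamily Φ ι where
  r := F.r
  X := F.X
  E := fun i => (F.a i).E
  e := fun i => (F.a i).e
  α := fun i => (F.a i).α
  isFree := fun i => (F.a i).isFree
  isSpanned := F.spans
  L₀ := fun i => (F.a i).L
  isStable := fun i => (F.a i).isStable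
  isAllowed := F.allows

lemma product_eq (T : Theory.{u, v}) (n : ℕ) (P : Fin (n + 1) → T.Pol) :
    T.product n P = (nest T.ops n P : Polarized T.𝒱) := by
  induction n with
  | zero => rfl
  | succ n ih =>
    change T.prod (P 0) (T.product n fun i => P i.succ) = _
    rw [ih]
    rfl

lemma FreeFamily.IsProduct.toHS {F : FreeFamily T Φ ι} {Q : T.Pol} (h : F.IsProduct Q) :
    F.toHS.IsProduct (Q : Polarized T.𝒱) := by
  obtain ⟨n, i, D, rfl, h1, h2, h3⟩ := h
  refine ⟨n, i, D, product_eq _ _ _, fun a => ⟨(h1 a).1, (h1 a).2.1, hard (h1 a).2.2.1, ht_iff.1 (h1 a).2.2.2⟩, ?_,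
    h3⟩
  intro j
  rcases h2 j with h | ⟨h, h'⟩
  · exact Or.inl h
  · exact Or.inr ⟨h, fun a b ha hb => ht_iff.1 (h' a b ha hb)⟩

lemma FreeFamily.IsIndependent.toHS {F : FreeFamily T Φ ι} {U : T.Pol} (h : F.IsIndependent U) :
    F.toHS.IsIndependent (U : Polarized T.𝒱) := h

end

/-- The theorem on the varieties cut out of products. -/
theorem freeMotives (T' : Theory.{u', v'}) (T : Theory.{u, v}) [IsAlgClosed T.W.K] (σ : CoefIso T' T)
    (p : ℕ) [Fact p.Prime] (Φ : FrobSystem T.W p) (ι₀ : AlgebraicClosure ℚ →+* PadicAlgCl p)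
    (F : FreeFamily T Φ ι₀) {ι κ : Type w} [Finite κ] (P' : ι → T'.Pol) (P : ι → T.Pol)
    (S : Specialization σ P' P) (hL : ∀ i, T'.IsLefschetz (P' i))
    (o : ι) (hH : ∀ i, T'.HT (T'.prod (P' o) (P' i)))
    (τ : κ → ι) (hC : T'.IsCutOut (P' o) (fun b => P' (τ b)))
    (hF : ∀ b, F.IsProduct (P (τ b))) :
    (T.HT (P o) ∧ T.HomNum (P o)) ∧
    ∀ U : T.Pol, T.IsLefschetz U → F.IsIndependent U → T.HT U →
      T.HT (T.prod U (P o)) ∧ T.HomNum (T.prod U (P o)) := by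
  have := Fintype.ofFinite κ
  obtain ⟨q, z, hz, hinj⟩ := hC
  have hHT : ∀ i, Pool.Agent.H914.HodgeType T'.W
      (Pool.Agent.H281R3.HT.Polarized.prod T'.ops (P' o) (P' i)).X
      (Pool.Agent.H281R3.HT.Polarized.prod T'.ops (P' o) (P' i)).D :=
    fun i j hj z hz hp h0 => hH i j z hj hz hp h0
  have h := Pool.Agent.H60.HS.main (σ := σ) (isLefschetz (hL o)) (fun b => isLefschetz (hL (τ b)))
    (hHT o) (fun b => hHT (τ b)) (cohIso (S.isSpec o)) (fun b => cohIso (S.isSpec (τ b)))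
    (S.isDiv o) (fun b => S.isDiv (τ b))
    (corrSpecialize (S.isSpec o) (S.isSpec o) (S.corr o o))
    (fun b => corrSpecialize (S.isSpec o) (S.isSpec (τ b)) (S.corr o (τ b)))
    (fun b => corrSpecialize (S.isSpec (τ b)) (S.isSpec o) (S.corr (τ b) o))
    (fun b => corrSpecialize (S.isSpec (τ b)) (S.isSpec (τ b)) (S.corr (τ b) (τ b))) q z hz
  have h1 := fun j => h.1 j (fun x _ hx => hinj x hx) fun b i _ _ => (hF b).toHS.hodge.1 i
  refine ⟨⟨ht_iff.2 fun j => (h1 j).1, homNum_iff.2 fun j => (h1 j).2⟩, ?_⟩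
  intro U hU hUI hUH
  have h2 := fun j => h.2 (fun x hx => hinj x hx) U (isLefschetz hU) j fun b i _ _ =>
    (hF b).toHS.hodge.2 U hUI.toHS hU.1 (hard hU.2.1) (ht_iff.1 hUH) i
  exact ⟨ht_iff.2 fun j => (h2 j).1, homNum_iff.2 fun j => (h2 j).2⟩

end Pool.Agent.H60.FM
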