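import Pool.Agent.H60.FM.Theory
import Pool.Graph.R_seed8.Y103.Sq.Defs
import Pool.Graph.R_seed8.Y103.Sh.Defs
import Pool.Graph.R_seed8.Y103.Hk.Defs2

/-!
# Families of varieties of K3 type with free Frobenius numbers: compact definitions
-/

set_option autoImplicit false

open CategoryTheory AlgebraicGeometry NumberField

universe u v

namespace Pool.Agent.H60.FM

open Pool.Agent.H914 Pool.Agent.H914.VarClass Pool.Agent.H914.VarClass.Obj
  Pool.Agent.H914.WeilCohomology Pool.Agent.H281R3.HT Pool.Agent.W534
  Pool.Agent.Y103.Hk Pool.Agent.Y103.Sh Pool.Agent.Y103.Sq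

/-- A free number `α` in a CM field `E`, an exponent `e`, and a Galois field `L`, which is allowed
to have intersections with the images of `E` which are not totally real. -/
structure FreeNumber {p : ℕ} [Fact p.Prime] (ι : AlgebraicClosure ℚ →+* PadicAlgCl p) where
  /-- the field -/
  E : Type
  [fld : Field E]
  [nf : NumberField E]
  [cm : IsCMField E]
  /-- the number -/
  α : E
  isFree : IsFreeNumber ι α
  /-- the exponent -/
  e : ℕ
  /-- the exceptional field -/
  L : IntermediateField ℚ (AlgebraicClosure ℚ)
  isStable : IsStable L

attribute [instance] FreeNumber.fld FreeNumber.nf FreeNumber.cm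

section

variable {p : ℕ} [Fact p.Prime] {ι : AlgebraicClosure ℚ →+* PadicAlgCl p}

/-- The intersections of `M` with the images of the CM field are totally real, or `M` is the
exceptional field. -/
def FreeNumber.Allows (a : FreeNumber ι) (M : IntermediateField ℚ (AlgebraicClosure ℚ)) : Prop :=
  IsAllowed a.E a.L M

/-- The Galois closure of the CM field. -/
noncomputable def FreeNumber.closure (a : FreeNumber ι) :
    IntermediateField ℚ (AlgebraicClosure ℚ) :=
  galoisClosure a.E

/-- The exceptional field is small with respect to `n` copies. -/
def FreeNumber.Small (a : FreeNumber ι) (n : ℕ) : Prop := SmallIntersection a.E a.L n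

/-- The cohomology of `X` is spanned by the classes of algebraic cycles and by eigenvectors of the
Frobenius endomorphism in the middle degree whose eigenvalues are given by the conjugates of the
number. -/
def FreeNumber.Spans (a : FreeNumber ι) (T : Theory.{u, v}) (Φ : FrobSystem T.W p)
    (X : T.𝒱.Obj) : Prop :=
  IsSpannedByNumber Φ X a.e a.α

/-- These eigenvectors, for each conjugate of the number, are multiples of each other. -/
def FreeNumber.MultOne (a : FreeNumber ι) (T : Theory.{u, v}) (Φ : FrobSystem T.W p)
    (X : T.𝒱.Obj) : Prop :=
  ∀ σ, OnLine T.W.K (letters Φ X a.e a.α σ)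

end

/-- Finitely many varieties `X i` over a finite field of characteristic `p`, such that the
cohomology of `X i` is spanned by classes of algebraic cycles and by eigenvectors of the Frobenius
endomorphism in the middle degree, with eigenvalues which are given by the conjugates of a free
number in a CM field `E i`. The Galois closure of `E j` has totally real intersections with the
images of `E i`, or it is the one exceptional field of the number `i`, for `i < j`. -/
structure FreeFamily (T : Theory.{u, v}) {p : ℕ} [Fact p.Prime] (Φ : FrobSystem T.W p)
    (ι : AlgebraicClosure ℚ →+* PadicAlgCl p) where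
  /-- the number of the varieties -/
  r : ℕ
  /-- the varieties -/
  X : Fin r → T.𝒱.Obj
  /-- the numbers -/
  a : Fin r → FreeNumber ι
  spans : ∀ i, (a i).Spans T Φ (X i)
  allows : ∀ i j, i < j → (a i).Allows (a j).closure

/-- The divisor of the polarized variety has positive degree, and the hard Lefschetz theorem and the
conjecture of Hodge type hold. -/
def IsGoodFactor (T : Theory.{u, v}) (P : T.Pol) : Prop :=
  T.IsDiv P ∧ 0 < (T.var P).V.degCycle (T.dpow P (T.dim P) (T.var P).V.fundCycle) ∧ T.Hard P ∧
    T.HT P

variable {T : Theory.{u, v}} {p : ℕ} [Fact p.Prime] {Φ : FrobSystem T.W p}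
  {ι : AlgebraicClosure ℚ →+* PadicAlgCl p}

/-- The member `X (i a)` with the divisor `D a`. -/
def FreeFamily.factor (F : FreeFamily T Φ ι) {n : ℕ} (i : Fin (n + 1) → Fin F.r)
    (D : ∀ a, (F.X (i a)).Cycles) (a : Fin (n + 1)) : T.Pol :=
  Polarized.mk (F.X (i a)) (D a)

/-- The product of several polarized varieties. -/
noncomputable def Theory.product (T : Theory.{u, v}) (n : ℕ) : (Fin (n + 1) → T.Pol) → T.Pol :=
  Nat.rec (fun P => P 0) (fun _ R P => T.prod (P 0) (R fun i => P i.succ)) n

/-- The polarized variety `Q` is a product of members `X (i 0), …, X (i n)` of the family, with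
divisors as in `IsGoodFactor`; if the eigenvectors for a conjugate of the number of a member are not
multiples of each other, the Tate conjecture holds for the square of the member (in the middle
codimension), and the conjecture of Hodge type holds for the products of two of its copies; the
exceptional fields are small with respect to the numbers of the copies. -/
def FreeFamily.IsProduct (F : FreeFamily T Φ ι) (Q : T.Pol) : Prop :=
  ∃ (n : ℕ) (i : Fin (n + 1) → Fin F.r) (D : ∀ a, (F.X (i a)).Cycles),
    Q = T.product n (F.factor i D) ∧ (∀ a, IsGoodFactor T (F.factor i D a)) ∧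
    (∀ j, (F.a j).MultOne T Φ (F.X j) ∨ (TateSquare Φ (F.X j) ∧
      ∀ a b, i a = j → i b = j → T.HT (T.prod (F.factor i D a) (F.factor i D b)))) ∧
    ∀ j, (F.a j).Small (copies i j)

/-- The slopes of `U` are products of slopes in Galois fields which have totally real intersections
with the fields `E i` (or are the exceptional field of the number `i`). -/
def FreeFamily.IsIndependent (F : FreeFamily T Φ ι) (U : T.Pol) : Prop :=
  ∃ 𝓛 : Set (IntermediateField ℚ (AlgebraicClosure ℚ)),
    (∀ i, ∀ L ∈ 𝓛, (F.a i).Allows L) ∧ HasSlopes Φ ι 𝓛 (T.var U)

end Pool.Agent.H60.FM
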