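import Pool.Graph.R_seed8.H281R3.HT.Defs

/-!
# Weil cohomology theories, polarized varieties, specialization: compact definitions
-/

set_option autoImplicit false

open CategoryTheory AlgebraicGeometry

universe u v u' v' w

namespace Pool.Agent.H60.FM

open Pool.Agent.H914 Pool.Agent.H914.VarClass Pool.Agent.H914.VarClass.Obj
  Pool.Agent.H914.WeilCohomology Pool.Agent.H281R3.HT

section Alg

variable {K' : Type v'} [Field K'] {H' : Type v'} [Ring H'] [Algebra K' H'] {K : Type v} [Field K]
  {H : Type v} [Ring H] [Algebra K H] {H₁ : Type v} [Ring H₁] [Algebra K H₁]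

/-- The element `x` is in the subspace. -/
def isIn (S : Submodule K H) (x : H) : Prop := x ∈ S

/-- The element is zero. -/
def isZero (x : H) : Prop := x = 0

/-- The product of the `r`-th power of `c` and `x`. -/
def powMul (c : H) (r : ℕ) (x : H) : H := c ^ r * x

/-- The value of a linear map. -/
def linApp (f : H →ₗ[K] H₁) (x : H) : H₁ := f x

/-- The value of a linear form. -/
def formApp (f : H →ₗ[K] K) (x : H) : K := f x

/-- The value of a homomorphism of groups. -/
def homApp {C : Type u} [AddCommGroup C] (f : C →+ H) (z : C) : H := f z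

/-- The isomorphisms of fields. -/
def FieldIso (K' : Type v') [Field K'] (K : Type v) [Field K] : Type (max v' v) := K' ≃+* K

/-- The isomorphisms of rings. -/
def RIso (H' : Type v') [Ring H'] (H : Type v) [Ring H] : Type (max v' v) := H' ≃+* H

/-- The image of an element of the field. -/
def FieldIso.app (σ : FieldIso K' K) (a : K') : K := RingEquiv.toEquiv σ a

/-- The image of an element of the ring. -/
def RIso.app (e : RIso H' H) (x : H') : H := RingEquiv.toEquiv e x

/-- The isomorphism `e` of algebras is semilinear with respect to the isomorphism `σ` of the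
fields. -/
def isSemilinear (σ : FieldIso K' K) (e : RIso H' H) : Prop :=
  ∀ (a : K') (x : H'), e.app (a • x) = σ.app a • e.app x

end Alg

/-- A Weil cohomology theory `W`, for a class `𝒱` of smooth projective varieties over a field `k`,
with intersection theory `ops`. -/
structure Theory where
  /-- the field -/
  k : Type u
  [fld : Field k]
  /-- the varieties -/
  𝒱 : VarClass k
  /-- the operations on cycles -/
  ops : CycleOps 𝒱
  /-- the cohomology -/
  W : WeilCohomology.{u, v} ops

attribute [instance] Theory.fld

namespace Theory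

variable (T : Theory.{u, v})

/-- The varieties with a cycle `D` (in the intended use: an ample divisor). -/
def Pol : Type (u + 1) := Polarized T.𝒱

/-- The variety. -/
def var (P : T.Pol) : T.𝒱.Obj := Polarized.X P

/-- The cycles on a variety. -/
def Cyc (P : T.Pol) : Type u := (T.var P).Cycles

/-- The cycle `z` has codimension `j`. -/
def IsCyc (P : T.Pol) (j : ℕ) (z : T.Cyc P) : Prop := (T.var P).IsCyc j z

/-- The dimension. -/
def dim (P : T.Pol) : ℕ := (T.var P).dim

/-- The divisor. -/
def div (P : T.Pol) : T.Cyc P := Polarized.D P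

/-- The product of two polarized varieties, with the divisor `D × Q + P × D'`. -/
noncomputable def prod (P Q : T.Pol) : T.Pol := Polarized.prod T.ops P Q

/-- The field of coefficients. -/
def Coef : Type v := T.W.K

/-- The cohomology ring. -/
def Coh (P : T.Pol) : Type v := T.W.H (T.var P)

/-- The class of a cycle. -/
noncomputable def cls (P : T.Pol) (z : T.Cyc P) : T.Coh P :=
  homApp (H := T.W.H (T.var P)) (T.W.cl (T.var P)) z

/-- The classes of degree `i`. -/
def gr (P : T.Pol) (i : ℕ) (x : T.Coh P) : Prop :=
  isIn (T.W.gr (T.var P) i) x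

/-- The orientation. -/
noncomputable def tr (P : T.Pol) (x : T.Coh P) : T.Coef :=
  formApp (K := T.W.K) (H := T.W.H (T.var P)) (T.W.tr (T.var P)) x

/-- The class is zero. -/
def IsNull (P : T.Pol) (x : T.Coh P) : Prop := isZero (H := T.W.H (T.var P)) x

/-- The image of the class `x` on `P` under the operator induced by the cycle `z` on `P × Q`. -/
noncomputable def act (P Q : T.Pol) (z : T.Cyc (T.prod P Q)) (x : T.Coh P) :
    T.Coh Q :=
  linApp (K := T.W.K) (H := T.W.H (T.var P)) (H₁ := T.W.H (T.var Q))
    (T.W.corr (T.cls (T.prod P Q) z)) x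

/-- The intersection number `z · w`. -/
noncomputable def inter (P : T.Pol) (z w : T.Cyc P) : ℚ :=
  (T.var P).V.degCycle (T.ops.mul z w)

/-- The cycle `D ^ i · z`. -/
noncomputable def dpow (P : T.Pol) (i : ℕ) (z : T.Cyc P) : T.Cyc P :=
  (T.ops.mul (T.div P))^[i] z

/-- The standard conjecture of Hodge type for a polarized variety, in all codimensions: if
`2 j ≤ n = dim P` and `z` is a cycle of codimension `j` such that the class of `z` is primitive (the
class of `D ^ (n - 2 j + 1) · z` is zero) and not zero, then `(-1) ^ j (z · D ^ (n - 2 j) z) > 0`. -/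
def HT (P : T.Pol) : Prop :=
  ∀ (j : ℕ) (z : T.Cyc P), 2 * j ≤ T.dim P → T.IsCyc P j z →
    T.IsNull P (T.cls P (T.dpow P (T.dim P - 2 * j + 1) z)) → ¬ T.IsNull P (T.cls P z) →
    0 < (-1 : ℚ) ^ j * T.inter P z (T.dpow P (T.dim P - 2 * j) z)

/-- Homological and numerical equivalence agree for the cycles on `P`, in all codimensions. -/
def HomNum (P : T.Pol) : Prop :=
  ∀ (j : ℕ) (z : T.Cyc P), j ≤ T.dim P → T.IsCyc P j z →
    (∀ w : T.Cyc P, T.IsCyc P (T.dim P - j) w → T.inter P z w = 0) → T.IsNull P (T.cls P z)

/-- The cycle `D` is a divisor. -/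
def IsDiv (P : T.Pol) : Prop := T.IsCyc P 1 (T.div P)

/-- The operator `L ^ r`, the multiplication by the `r`-th power of the class of `D`. -/
noncomputable def lef (P : T.Pol) (r : ℕ) (x : T.Coh P) : T.Coh P :=
  powMul (H := T.W.H (T.var P)) (T.cls P (T.div P)) r x

/-- The hard Lefschetz theorem for `D`: for `i ≤ n = dim P` the map `L ^ (n - i)` from `H^i(P)` to
`H^(2 n - i)(P)` is bijective. -/
def Hard (P : T.Pol) : Prop :=
  ∀ i ≤ T.dim P,
    (∀ x, T.gr P i x → T.IsNull P (T.lef P (T.dim P - i) x) → T.IsNull P x) ∧
    ∀ y, T.gr P (2 * T.dim P - i) y → ∃ x, T.gr P i x ∧ T.lef P (T.dim P - i) x = y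

/-- The Lefschetz standard conjecture for `D`: an algebraic cycle on `P × P` induces the operator
`Λ`, which sends `L ^ (j + 1) x` to `L ^ j x`, and `x` to zero, for `x` primitive of degree `i ≤ n`
and `j < n - i`, where `n = dim P`. -/
def LefB (P : T.Pol) : Prop :=
  ∃ z : T.Cyc (T.prod P P), T.IsCyc (T.prod P P) (T.dim P - 1) z ∧
    ∀ i ≤ T.dim P, ∀ x, T.gr P i x → T.IsNull P (T.lef P (T.dim P - i + 1) x) →
      T.IsNull P (T.act P P z x) ∧
      ∀ j < T.dim P - i, T.act P P z (T.lef P (j + 1) x) = T.lef P j x

/-- The cycle `D` is a divisor for which the hard Lefschetz theorem and the Lefschetz standard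
conjecture hold. -/
def IsLefschetz (P : T.Pol) : Prop := T.IsDiv P ∧ T.Hard P ∧ T.LefB P

/-- The cohomology of `M` is embedded in the sum of the cohomology groups of the `Y b` by algebraic
cycles on the `M × Y b`. -/
def IsCutOut {κ : Type w} (M : T.Pol) (Y : κ → T.Pol) : Prop :=
  ∃ (p : κ → ℕ) (z : ∀ b, T.Cyc (T.prod M (Y b))), (∀ b, T.IsCyc (T.prod M (Y b)) (p b) (z b)) ∧
    ∀ x : T.Coh M, (∀ b, T.IsNull (Y b) (T.act M (Y b) (z b) x)) → T.IsNull M x

end Theory

variable {T' : Theory.{u', v'}} {T : Theory.{u, v}} {P' Q' : T'.Pol} {P Q : T.Pol}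

/-- An isomorphism of the fields of coefficients. -/
def CoefIso (T' : Theory.{u', v'}) (T : Theory.{u, v}) : Type (max v' v) := FieldIso T'.W.K T.W.K

/-- The image of a coefficient. -/
def CoefIso.app (σ : CoefIso T' T) (a : T'.Coef) :
    T.Coef := FieldIso.app (K' := T'.W.K) (K := T.W.K) σ a

/-- An isomorphism of the cohomology rings. -/
def RingIso (T' : Theory.{u', v'}) (T : Theory.{u, v}) (P' : T'.Pol) (P : T.Pol) :
    Type (max v' v) := RIso (T'.W.H (T'.var P')) (T.W.H (T.var P))

/-- The image of a cohomology class. -/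
def RingIso.app
    (e : RingIso T' T P' P) (x : T'.Coh P') : T.Coh P :=
  RIso.app (H' := T'.W.H (T'.var P')) (H := T.W.H (T.var P)) e x

/-- The isomorphism is semilinear with respect to `σ`. -/
def RingIso.IsSemilinear
    (e : RingIso T' T P' P) (σ : CoefIso T' T) : Prop :=
  isSemilinear (K' := T'.W.K) (K := T.W.K) (H' := T'.W.H (T'.var P')) (H := T.W.H (T.var P)) σ e

/-- The ring isomorphism `e` is semilinear with respect to the isomorphism `σ` of the coefficient
fields, and it is compatible with the degrees, the orientations and the classes of the divisors. (In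
the intended use `P'` and `P` are the geometric generic and the special fibre of a polarized smooth
projective scheme over a discrete valuation ring, and the isomorphism is given by the smooth and
proper base change theorem.) -/
structure IsSpec (σ : CoefIso T' T)
    (e : RingIso T' T P' P) : Prop where
  dim_eq : T'.dim P' = T.dim P
  semilinear : e.IsSemilinear σ
  gr : ∀ i (x : T'.Coh P'), T'.gr P' i x ↔ T.gr P i (e.app x)
  tr : ∀ x : T'.Coh P', T.tr P (e.app x) = σ.app (T'.tr P' x)
  div : e.app (T'.cls P' (T'.div P')) = T.cls P (T.div P)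

/-- For every algebraic cycle on `P' × Q'` there is an algebraic cycle of the same codimension on
`P × Q` which induces the same operator in cohomology, for the given isomorphisms. -/
def CyclesSpecialize
    (e : RingIso T' T P' P) (f : RingIso T' T Q' Q) : Prop :=
  ∀ (p : ℕ) (z' : T'.Cyc (T'.prod P' Q')), T'.IsCyc (T'.prod P' Q') p z' →
    ∃ z : T.Cyc (T.prod P Q), T.IsCyc (T.prod P Q) p z ∧
      ∀ x, T.act P Q z (e.app x) = f.app (T'.act P' Q' z' x)

/-- The polarized varieties `P' i` over `k'` specialize to the polarized varieties `P i` over `k`: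
isomorphisms of the cohomology such that all algebraic correspondences between the `P' i`
specialize to algebraic correspondences between the `P i`. -/
structure Specialization (σ : CoefIso T' T)
    {ι : Type w} (P' : ι → T'.Pol) (P : ι → T.Pol) where
  /-- the isomorphisms of the cohomology -/
  e : ∀ i, RingIso T' T (P' i) (P i)
  isSpec : ∀ i, IsSpec σ (e i)
  isDiv : ∀ i, T.IsDiv (P i)
  corr : ∀ i j, CyclesSpecialize (e i) (e j)

end Pool.Agent.H60.FM
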